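import Pool.Agent.H411R2.WSK.Conn

/-!
Kempe equivalence of colourings of graphs without three pairwise non-adjacent vertices.
-/

namespace Pool.Agent.K3h66.KE

open Pool.Agent.H411R2.WSK Finset

variable {V : Type*} [Fintype V] [DecidableEq V] {G : SimpleGraph V} {q : ℕ}

/-- recolouring a single vertex by a colour absent from its neighbourhood -/
theorem conn_update {c : V → Fin q} (hc : Proper G c) (w : V) (x : Fin q) (hx : x ≠ c w)
    (hn : ∀ v, G.Adj w v → c v ≠ x) : Conn G c (Function.update c w x) := by
  refine conn_of_closed hc (a := c w) (b := x) hx.symm (U := {w}) ⟨?_, ?_⟩ ⟨?_, ?_⟩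
  · intro v hv
    rw [Set.mem_singleton_iff] at hv
    subst hv; exact Or.inl rfl
  · intro v hv u huv hu
    rw [Set.mem_singleton_iff] at hv
    subst hv
    rcases hu with hu | hu
    · exact absurd hu.symm (hc _ _ huv)
    · exact absurd hu (hn _ huv)
  · intro v hv
    rw [Set.mem_singleton_iff] at hv
    subst hv
    rw [Function.update_self, Equiv.swap_apply_left]
  · intro v hv
    rw [Set.mem_singleton_iff] at hv
    rw [Function.update_of_ne hv]

/-- the ordered pairs on which the kernels of `c` and `g` differ -/
def S (c g : V → Fin q) : Finset (V × V) :=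
  univ.filter fun p => p.1 ≠ p.2 ∧ ¬ ((c p.1 = c p.2) ↔ (g p.1 = g p.2))

theorem mem_S {c g : V → Fin q} {p : V × V} :
    p ∈ S c g ↔ p.1 ≠ p.2 ∧ ¬ ((c p.1 = c p.2) ↔ (g p.1 = g p.2)) := by
  simp [S]

theorem S_update {c g : V → Fin q} (w : V) (x : Fin q)
    (h1 : ∀ v, v ≠ w → ((c w = c v) ↔ (g w = g v)) → ((x = c v) ↔ (g w = g v)))
    (v0 : V) (hv0 : v0 ≠ w) (h2 : ¬ ((c w = c v0) ↔ (g w = g v0))) (h3 : (x = c v0) ↔ (g w = g v0)) :
    (S (Function.update c w x) g).card < (S c g).card := by
  apply card_lt_card
  rw [ssubset_iff_of_subset]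
  · refine ⟨(w, v0), mem_S.2 ⟨hv0.symm, h2⟩, fun h => ?_⟩
    have := (mem_S.1 h).2
    simp only [Function.update_self, Function.update_of_ne hv0] at this
    exact this h3
  · rintro ⟨a, b⟩ hab
    rw [mem_S] at hab ⊢
    obtain ⟨hne, hab⟩ := hab
    simp only at hne hab ⊢
    refine ⟨hne, fun hcon => hab ?_⟩
    by_cases ha : a = w
    · subst ha
      have hb : b ≠ a := hne.symm
      rw [Function.update_self, Function.update_of_ne hb]
      exact h1 b hb hcon
    · rw [Function.update_of_ne ha]
      by_cases hb : b = w
      · subst hb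
        rw [Function.update_self]
        have := h1 a ha (by
          constructor
          · intro h; exact (hcon.1 h.symm).symm
          · intro h; exact (hcon.2 h.symm).symm)
        constructor
        · intro h; exact (this.1 h.symm).symm
        · intro h; exact (this.2 h.symm).symm
      · rw [Function.update_of_ne hb]
        exact hcon

/-- no three distinct vertices receive the same colour -/
def Two (c : V → Fin q) : Prop := ∀ x y z, c x = c y → c y = c z → x = y ∨ y = z ∨ x = z

/-- number of colours and of matched vertices -/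
theorem count {c : V → Fin q} (h : Two c) :
    2 * (univ.image c).card + (univ.filter fun v => ∃ u, u ≠ v ∧ c u = c v).card =
      2 * Fintype.card V := by
  classical
  have h1 : (univ : Finset V).card = ∑ b ∈ univ.image c, (univ.filter fun v => c v = b).card :=
    card_eq_sum_card_image c univ
  have h2 : (univ.filter fun v => ∃ u, u ≠ v ∧ c u = c v).card =
      ∑ b ∈ univ.image c, ((univ.filter fun v => ∃ u, u ≠ v ∧ c u = c v).filter fun v => c v = b).card := by
    apply card_eq_sum_card_fiberwise
    intro v _
    simp
  rw [← card_univ, h1, h2, mul_sum, mul_comm 2 (card _), card_eq_sum_ones, sum_mul,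
    ← sum_add_distrib]
  apply sum_congr rfl
  intro b hb
  rw [mem_image] at hb
  obtain ⟨v, -, hv⟩ := hb
  by_cases hp : ∃ u, u ≠ v ∧ c u = c v
  · obtain ⟨u, huv, hu⟩ := hp
    have e1 : (univ.filter fun w => c w = b) = {v, u} := by
      ext w
      simp only [mem_filter, mem_univ, true_and, mem_insert, mem_singleton]
      constructor
      · intro hw
        rcases h w v u (hw.trans hv.symm) hu.symm with h' | h' | h'
        · exact Or.inl h'
        · exact absurd h'.symm huv
        · exact Or.inr h'
      · rintro (rfl | rfl)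
        · exact hv
        · exact hu.trans hv
    have e2 : ((univ.filter fun v => ∃ u, u ≠ v ∧ c u = c v).filter fun v => c v = b) = {v, u} := by
      ext w
      simp only [mem_filter, mem_univ, true_and, mem_insert, mem_singleton]
      constructor
      · rintro ⟨-, hw⟩
        rcases h w v u (hw.trans hv.symm) hu.symm with h' | h' | h'
        · exact Or.inl h'
        · exact absurd h'.symm huv
        · exact Or.inr h'
      · rintro (rfl | rfl)
        · exact ⟨⟨u, huv, hu⟩, hv⟩
        · exact ⟨⟨v, huv.symm, hu.symm⟩, hu.trans hv⟩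
    rw [e1, e2, card_pair huv.symm]; norm_num
  · have e1 : (univ.filter fun w => c w = b) = {v} := by
      ext w
      simp only [mem_filter, mem_univ, true_and, mem_singleton]
      constructor
      · intro hw
        by_contra hne
        exact hp ⟨w, hne, hw.trans hv.symm⟩
      · rintro rfl; exact hv
    have e2 : ((univ.filter fun v => ∃ u, u ≠ v ∧ c u = c v).filter fun v => c v = b) = ∅ := by
      rw [filter_eq_empty_iff]
      intro w hw hwb
      rw [mem_filter] at hw
      obtain ⟨-, u, huw, hu⟩ := hw
      have hwv : w = v := by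
        by_contra hne
        exact hp ⟨w, hne, hwb.trans hv.symm⟩
      subst hwv
      exact hp ⟨u, huw, hu⟩
    rw [e1, e2]; simp

omit [Fintype V] [DecidableEq V] in
theorem two_of_free (hG : ∀ x y z : V, x ≠ y → y ≠ z → x ≠ z → G.Adj x y ∨ G.Adj y z ∨ G.Adj x z)
    {c : V → Fin q} (hc : Proper G c) : Two c := by
  intro x y z hxy hyz
  by_contra hcon
  push Not at hcon
  rcases hG x y z hcon.1 hcon.2.1 hcon.2.2 with h | h | h
  · exact hc _ _ h hxy
  · exact hc _ _ h hyz
  · exact hc _ _ h (hxy.trans hyz)

/-- every proper colouring can be brought to the partition of a given colouring that leaves a colour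
unused -/
theorem exists_min (hG : ∀ x y z : V, x ≠ y → y ≠ z → x ≠ z → G.Adj x y ∨ G.Adj y z ∨ G.Adj x z)
    {g : V → Fin q} (hg : Proper G g) (z : Fin q) (hz : ∀ v, g v ≠ z) :
    ∀ (N : ℕ) (c : V → Fin q), (S c g).card = N → Proper G c →
      ∃ c' : V → Fin q, Conn G c c' ∧ S c' g = ∅ := by
  intro N
  induction N using Nat.strong_induction_on with
  | _ N ih =>
  intro c hN hc
  have hgt := two_of_free hG hg
  have hct := two_of_free hG hc
  by_cases hS : S c g = ∅
  · exact ⟨c, Conn.refl hc, hS⟩
  -- a single recolouring that decreases the measure finishes the proof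
  have hmove : ∀ (w : V) (x : Fin q), x ≠ c w → (∀ v, G.Adj w v → c v ≠ x) →
      (S (Function.update c w x) g).card < (S c g).card →
      ∃ c' : V → Fin q, Conn G c c' ∧ S c' g = ∅ := by
    intro w x hx hn hlt
    have h1 := conn_update hc w x hx hn
    have hpr : Proper G (Function.update c w x) := h1.2.1
    obtain ⟨c', h2, h3⟩ := ih _ (hN ▸ hlt) _ rfl hpr
    exact ⟨c', h1.trans h2, h3⟩
  -- a vertex `w` single in `c`, with `g`-partner `y`
  have hA : ∀ w y : V, w ≠ y → g w = g y → (∀ u, u ≠ w → c u ≠ c w) →
      ∃ c' : V → Fin q, Conn G c c' ∧ S c' g = ∅ := by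
    intro w y hwy hgwy hsing
    have hcwy : c y ≠ c w := hsing y hwy.symm
    -- recolour `y` with the colour of `w`
    refine hmove y (c w) hcwy.symm ?_ ?_
    · intro v hv hcv
      by_cases hvw : v = w
      · subst hvw
        exact hg _ _ hv hgwy.symm
      · exact hsing v hvw hcv
    · refine S_update y (c w) ?_ w hwy ?_ ?_
      · intro v hvy _
        constructor
        · intro h
          by_cases hvw : v = w
          · subst hvw; exact hgwy.symm
          · exact absurd h.symm (hsing v hvw)
        · intro h
          rcases hgt w y v hgwy h with h' | h' | h'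
          · exact absurd h' hwy
          · exact absurd h'.symm hvy
          · rw [h']
      · intro h
        exact hcwy (h.2 hgwy.symm)
      · exact ⟨fun _ => hgwy.symm, fun _ => rfl⟩
  by_cases hsing : ∃ w y : V, w ≠ y ∧ g w = g y ∧ ∀ u, u ≠ w → c u ≠ c w
  · obtain ⟨w, y, h1, h2, h3⟩ := hsing
    exact hA w y h1 h2 h3
  push Not at hsing
  -- the colouring `c` leaves a colour unused
  obtain ⟨z', hz'⟩ : ∃ z', ∀ v, c v ≠ z' := by
    have c1 := count hct
    have c2 := count hgt
    have c3 : (univ.filter fun v => ∃ u, u ≠ v ∧ g u = g v).card ≤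
        (univ.filter fun v => ∃ u, u ≠ v ∧ c u = c v).card := by
      apply card_le_card
      intro v hv
      rw [mem_filter] at hv ⊢
      obtain ⟨-, u, huv, hu⟩ := hv
      obtain ⟨u', h1, h2⟩ := hsing v u huv.symm hu.symm
      exact ⟨mem_univ _, u', h1, h2⟩
    have c4 : (univ.image g).card < q := by
      have : (univ.image g) ⊂ (univ : Finset (Fin q)) := by
        rw [ssubset_univ_iff]
        intro h
        have := h ▸ mem_univ z
        rw [mem_image] at this
        obtain ⟨v, -, hv⟩ := this
        exact hz v hv
      have := card_lt_card this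
      rwa [card_univ, Fintype.card_fin] at this
    have c5 : (univ.image c).card < q := by omega
    by_contra hcon
    push Not at hcon
    have : univ.image c = univ := by
      ext b
      simp only [mem_image, mem_univ, true_and, iff_true]
      exact hcon b
    rw [this, card_univ, Fintype.card_fin] at c5
    exact lt_irrefl _ c5
  -- pairs in the kernel of `c` but not in that of `g` can be removed
  by_cases hrem : ∃ w y : V, w ≠ y ∧ c w = c y ∧ g w ≠ g y
  · obtain ⟨w, y, hwy, hc1, hg1⟩ := hrem
    refine hmove w z' (hz' w).symm (fun v _ => hz' v) (S_update w z' ?_ y hwy.symm ?_ ?_)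
    · intro v hvw hiff
      constructor
      · intro h; exact absurd h.symm (hz' v)
      · intro h
        exfalso
        have h2 := hiff.2 h
        rcases hct y w v hc1.symm h2 with h' | h' | h'
        · exact hwy h'.symm
        · exact hvw h'.symm
        · rw [← h'] at h; exact hg1 h
    · intro h; exact hg1 (h.1 hc1)
    · exact ⟨fun h => absurd h.symm (hz' y), fun h => absurd h hg1⟩
  push Not at hrem
  exfalso
  apply hS
  rw [Finset.eq_empty_iff_forall_notMem]
  rintro ⟨x, y⟩ hxy
  rw [mem_S] at hxy
  obtain ⟨hne, hxy⟩ := hxy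
  simp only at hne hxy
  apply hxy
  constructor
  · intro h; exact hrem x y hne h
  · intro h
    obtain ⟨u, hux, hu⟩ := hsing x y hne h
    have hgu := hrem u x hux hu
    rcases hgt u x y hgu h with h' | h' | h'
    · exact absurd h' hux
    · exact absurd h' hne
    · rw [← h', hu]

/-- colourings with the same kernel differ by a permutation of the colours -/
theorem exists_perm {c g : V → Fin q} (h : S c g = ∅) :
    ∃ σ : Equiv.Perm (Fin q), ∀ v, g v = σ (c v) := by
  classical
  have hk : ∀ x y, c x = c y ↔ g x = g y := by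
    intro x y
    by_cases hxy : x = y
    · subst hxy; simp
    · by_contra hcon
      have : (x, y) ∈ S c g := mem_S.2 ⟨hxy, hcon⟩
      rw [h] at this
      simp at this
  set e : Fin q → Fin q := fun b => if hb : ∃ v, c v = b then g hb.choose else b with he
  have hec : ∀ v, e (c v) = g v := by
    intro v
    have hb : ∃ u, c u = c v := ⟨v, rfl⟩
    simp only [he, dif_pos hb]
    exact (hk _ _).1 hb.choose_spec
  have hinj : Set.InjOn e (Set.range c) := by
    rintro _ ⟨x, rfl⟩ _ ⟨y, rfl⟩ hxy
    rw [hec, hec] at hxy
    exact (hk _ _).2 hxy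
  obtain ⟨σ, hσ⟩ := Finset.exists_equiv_extend_of_card_eq (s := univ.image c) (t := univ)
    (α := Fin q) (β := Fin q) (by simp) (f := e) (by simp) (by simpa using hinj)
  refine ⟨σ.trans (Equiv.subtypeUnivEquiv (by simp)), fun v => ?_⟩
  have := hσ (c v) (by simp)
  rw [Equiv.trans_apply]
  show g v = ((σ (c v)) : Fin q)
  rw [this, hec]

theorem main [Finite V] (hG : ∀ x y z : V, x ≠ y → y ≠ z → x ≠ z → G.Adj x y ∨ G.Adj y z ∨ G.Adj x z)
    {g : V → Fin q} (hg : Proper G g) (z : Fin q) (hz : ∀ v, g v ≠ z) : WSKErgodic G q := by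
  apply ergodic_of_conn (base := g)
  intro c hc
  obtain ⟨c', h1, h2⟩ := exists_min hG hg z hz _ c rfl hc
  obtain ⟨σ, hσ⟩ := exists_perm h2
  have h3 := Conn.perm h1.2.1 σ
  have : (fun v => σ (c' v)) = g := by
    funext v; exact (hσ v).symm
  rw [this] at h3
  exact h1.trans h3

end Pool.Agent.K3h66.KE
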